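import Pool.Agent.H70.AB.Defs
import Pool.Agent.H70.AB.W158.Final

/-!
# The lexicographically least 15/8-power-free word
-/

namespace Pool.Agent.Results.MP_7e6e0e_co.FifteenEighths

open Pool.Agent.H70.AB

/-- The lexicographically least 15/8-power-free word w exists and satisfies
w(22763 i + 22850) = w(i) + 2 for all i; off this residue class it is eventually periodic;
its letter sequence is 22763-regular. -/
theorem result : (∃ w : ℕ → ℕ, LexLeast 15 8 w) ∧ ∀ w : ℕ → ℕ, LexLeast 15 8 w →
    (∀ i, w (22763 * i + 22850) = w i + 2) ∧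
    (∀ m n, m ≡ n [MOD 22763] → ¬ m ≡ 87 [MOD 22763] → w m = w n) ∧
    Regular 22763 (fun n => (w n : ℤ)) := by
  obtain ⟨h1, h2⟩ := conclude W158.final
  refine ⟨h1, fun w hw => ?_⟩
  obtain ⟨h3, h4, h5⟩ := h2 w hw
  exact ⟨h3, fun m n hmn hc => h4 m n (Nat.zero_le _) (Nat.zero_le _) hmn
    (fun hh => hc (by simpa [Nat.ModEq] using hh)), h5⟩

end Pool.Agent.Results.MP_7e6e0e_co.FifteenEighths
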