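import Pool.Agent.H70.AB.W75.Final

/-!
# The lexicographically least 7/5-power-free word
-/

namespace Pool.Agent.Results.MP_7e6e0e_co.SevenFifths

open Pool.Agent.H70.AB

/-- The lexicographically least 7/5-power-free word w exists. The relation
w(80874 i + 173978) = w(i) + 1 conjectured for all i holds for i < 2057 and fails for i = 2057.
Instead w(2992338 i + 181978730) = w(i) + 2 for all i, the word is eventually periodic off this
residue class, and its letter sequence is 2992338-regular. -/
theorem result : (∃ w : ℕ → ℕ, LexLeast 7 5 w) ∧ ∀ w : ℕ → ℕ, LexLeast 7 5 w →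
    (∀ i < 2057, w (80874 * i + 173978) = w i + 1) ∧
    w (80874 * 2057 + 173978) ≠ w 2057 + 1 ∧
    (∀ i, w (2992338 * i + 181978730) = w i + 2) ∧
    (∀ m n, 178582023 ≤ m → 178582023 ≤ n → m ≡ n [MOD 2992338] →
      ¬ m ≡ 181978730 [MOD 2992338] → w m = w n) ∧
    Regular 2992338 (fun n => (w n : ℤ)) := by
  obtain ⟨h1, h2⟩ := conclude W75.final
  refine ⟨h1, fun w hw => ?_⟩
  have hv : LexLeast 7 5 W75.v := ⟨avoids_iff.mpr W75.avoids, fun u hu => W75.least u (avoids_iff.mp hu)⟩
  have hwv : w = W75.v := hw.unique hv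
  obtain ⟨h3, h4, h5⟩ := h2 w hw
  refine ⟨?_, ?_, h3, h4, h5⟩
  · intro i hi
    rw [hwv]
    exact W75.rel_small i hi
  · rw [hwv, W75.rel_fail, W75.v_2057]
    norm_num

end Pool.Agent.Results.MP_7e6e0e_co.SevenFifths
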