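import Pool.Agent.H70.AB.Defs
import Pool.Agent.H70.AB.W76.Final

/-!
# The lexicographically least 7/6-power-free word
-/

namespace Pool.Agent.Results.MP_7e6e0e_co.SevenSixths

open Pool.Agent.H70.AB

/-- The lexicographically least 7/6-power-free word w exists and satisfies
w(41190 i + 41201) = w(i) + 3 for all i; off this residue class it is eventually periodic;
its letter sequence is 41190-regular. -/
theorem result : (∃ w : ℕ → ℕ, LexLeast 7 6 w) ∧ ∀ w : ℕ → ℕ, LexLeast 7 6 w →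
    (∀ i, w (41190 * i + 41201) = w i + 3) ∧
    (∀ m n, 6 ≤ m → 6 ≤ n → m ≡ n [MOD 247140] → ¬ m ≡ 11 [MOD 41190] → w m = w n) ∧
    Regular 41190 (fun n => (w n : ℤ)) := by
  obtain ⟨h1, h2⟩ := conclude W76.final
  refine ⟨h1, fun w hw => ?_⟩
  obtain ⟨h3, h4, h5⟩ := h2 w hw
  exact ⟨h3, fun m n hm hn hmn hc => h4 m n hm hn hmn
    (fun hh => hc (by simpa [Nat.ModEq] using hh)), h5⟩

end Pool.Agent.Results.MP_7e6e0e_co.SevenSixths
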